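import Pool.Agent.Q4.Orb.Final

namespace Pool.Agent.Results.MP_b87388_al.DifferentGldim

open Q4.Orb

/-- There is a finite group `G` (the affine group of the field with eight elements, of order `56`)
such that the rational incidence algebra of `Sub_G / G` and the category of rational coefficient
systems for `G` have different global dimensions. -/
theorem result :
    ∃ (G : Type) (_ : Group G) (_ : Finite G), gldimIA G ≠ gldimCoef G :=
  ⟨Aff F8, inferInstance, inferInstance, gldim_ne⟩

end Pool.Agent.Results.MP_b87388_al.DifferentGldim
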